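import Mathlib
import Pool.Agent.Helper28.AN.Raw
import Pool.Agent.Helper28.AN.RawRho
import Pool.Agent.Helper6.HD.Main

/-!
MP_8410f8_pr, Q1: in high dimension all the thresholds of `χ > k`, `2 ≤ k ≤ d`, of the random
Borsuk graph lie within a factor `1 + ε` of each other.
-/

open Filter Topology

namespace Pool.Agent.Results.MP_8410f8_pr.HighDimension

open Pool.Agent.Helper28.AN.Raw

/-- `rho d = (area of S^d / volume of the unit ball of ℝ^d)^(1/d)` is a lower threshold and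
`(1 + ε) rho d` is an upper threshold for `χ > k`, for all `2 ≤ k ≤ d`, when `C log d ≤ ε³ d`. -/
theorem result : ∃ C : ℝ, 0 < C ∧ ∀ (d k : ℕ) (ε : ℝ), 2 ≤ k → k ≤ d → 0 < ε → ε ≤ 1 →
    C * Real.log d ≤ ε ^ 3 * d →
    LowerAt d k (rho d) ∧ UpperAt d k ((1 + ε) * rho d) ∧
    (∀ c : ℝ, 0 < c → LowerAt d k c → UpperAt d k c → rho d ≤ c ∧ c ≤ (1 + ε) * rho d) ∧
    ∀ c₂ : ℝ, 0 < c₂ → LowerAt d 2 c₂ → UpperAt d 2 c₂ →
      LowerAt d k c₂ ∧ UpperAt d k ((1 + ε) * c₂) :=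
  Pool.Agent.Helper6.HD.main

end Pool.Agent.Results.MP_8410f8_pr.HighDimension
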