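import Mathlib
import Pool.Agent.Helper28.AN.Raw
import Pool.Agent.Helper28.AN.SharpMain

/-!
MP_8410f8_pr, Q1: the property `χ > k` of the random Borsuk graph has a sharp threshold along all
`n`, the threshold is a slowly varying multiple of `n^{-1/d}`, and Q1 is equivalent to the
convergence of the medians.
-/

open Filter Topology
open scoped ENNReal

namespace Pool.Agent.Results.MP_8410f8_pr.SharpForAllN

open Pool.Agent.Helper28.AN.Raw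

/-- Sharp thresholds along all `n`, and Q1 as a statement on the convergence of the medians. -/
theorem result (d : ℕ) (hd : 2 ≤ d) :
    (∀ (k : ℕ) (c C ε : ℝ), 2 ≤ k → 0 < c → c ≤ C → 0 < ε → ∃ η : ℝ, 0 < η ∧ ∀ δ : ℝ, 0 < δ →
      ∃ n₀ : ℕ, ∀ (n m : ℕ) (α : ℝ), n₀ ≤ n → (m : ℝ) ≤ (1 + η) * n →
        c * (n : ℝ) ^ (-(1 : ℝ) / d) ≤ α → α ≤ C * (n : ℝ) ^ (-(1 : ℝ) / d) →
        ENNReal.ofReal δ ≤ prob d m α k → ENNReal.ofReal (1 - δ) ≤ prob d n ((1 + ε) * α) k) ∧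
    (∀ (k : ℕ) (c C : ℝ), 2 ≤ k → 0 < c →
      (∀ᶠ n : ℕ in atTop, c ≤ (n : ℝ) ^ ((1 : ℝ) / d) * med d k n ∧
        (n : ℝ) ^ ((1 : ℝ) / d) * med d k n ≤ C) →
      (∀ ε : ℝ, 0 < ε → ε < 1 →
        Tendsto (fun n => prob d n ((1 - ε) * med d k n) k) atTop (𝓝 0) ∧
        Tendsto (fun n => prob d n ((1 + ε) * med d k n) k) atTop (𝓝 1)) ∧
      ∀ m : ℕ → ℕ, Tendsto (fun n => (m n : ℝ) / n) atTop (𝓝 1) →
        Tendsto (fun n => med d k (m n) / med d k n) atTop (𝓝 1)) ∧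
    (∀ (k : ℕ) (c : ℝ), 2 ≤ k → 0 < c → ((LowerAt d k c ∧ UpperAt d k c) ↔
      Tendsto (fun n : ℕ => (n : ℝ) ^ ((1 : ℝ) / d) * med d k n) atTop (𝓝 c))) ∧
    (∀ c₂ : ℝ, 0 < c₂ → LowerAt d 2 c₂ → UpperAt d 2 c₂ →
      ((∃ c : ℕ → ℝ, c 2 = c₂ ∧ (∀ k l, 2 ≤ k → k < l → l ≤ d → c k < c l) ∧
          ∀ k, 3 ≤ k → k ≤ d → LowerAt d k (c k) ∧ UpperAt d k (c k)) ↔
        ∀ k, 3 ≤ k → k ≤ d → ∃ L : ℝ,
          Tendsto (fun n : ℕ => (n : ℝ) ^ ((1 : ℝ) / d) * med d k n) atTop (𝓝 L))) :=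
  Pool.Agent.Helper28.AN.sharpMain d hd

end Pool.Agent.Results.MP_8410f8_pr.SharpForAllN
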