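import Mathlib
import Pool.Agent.Helper28.AN.Raw
import Pool.Agent.Helper97.BG.StrictMain

/-!
MP_8410f8_pr, Q1: the strict ordering of the colourability thresholds of the random Borsuk graph.
-/

open Filter Topology
open scoped ENNReal

namespace Pool.Agent.Results.MP_8410f8_pr.StrictOrder

open Pool.Agent.Helper28.AN.Raw

/-- Strict ordering of the thresholds. -/
theorem result (d : ℕ) (hd : 2 ≤ d) :
    (∀ C : ℝ, 0 < C → ∃ ε : ℝ, 0 < ε ∧ ε < 1 ∧ ∃ err : ℕ → ℝ≥0∞, Tendsto err atTop (𝓝 0) ∧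
      ∀ (k n : ℕ) (α : ℝ), 1 ≤ k → 0 < α → α ≤ C * (n : ℝ) ^ (-(1 : ℝ) / d) →
        prob d n α (k + 1) ≤ prob d ⌈(1 - ε) * (n : ℝ)⌉₊ α k + err n) ∧
    (∀ (k : ℕ) (c : ℝ), 1 ≤ k → 0 < c → LowerAt d k c →
      ∃ δ : ℝ, 0 < δ ∧ LowerAt d (k + 1) (c + δ)) ∧
    (∀ (k : ℕ) (c : ℝ), 1 ≤ k → 0 < c → UpperAt d (k + 1) c →
      ∃ δ : ℝ, 0 < δ ∧ δ < c ∧ UpperAt d k (c - δ)) ∧
    (∀ c : ℕ → ℝ, (∀ k, 2 ≤ k → k ≤ d → 0 < c k ∧ LowerAt d k (c k) ∧ UpperAt d k (c k)) →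
      ∀ k l, 2 ≤ k → k < l → l ≤ d → c k < c l) :=
  Pool.Agent.Helper97.BG.strictMain d hd

end Pool.Agent.Results.MP_8410f8_pr.StrictOrder
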