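import Mathlib
import Pool.Agent.Helper28.AN.Raw
import Pool.Agent.Helper97.BG.Final3

/-!
MP_8410f8_pr, Q1: superadditivity of the lower thresholds for `χ > k` of the random Borsuk graph.
-/

namespace Pool.Agent.Results.MP_8410f8_pr.Superadditive

open Pool.Agent.Helper28.AN.Raw

/-- If `a` is a lower threshold for `χ > j` and `b` one for `χ > k`, then `(a^d + b^d)^{1/d}` is a
lower threshold for `χ > j + k`. -/
theorem result (d : ℕ) (hd : 2 ≤ d) (j k : ℕ) (hj : 1 ≤ j) (hk : 1 ≤ k) (a b : ℝ)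
    (ha : 0 < a) (hb : 0 < b) (hA : LowerAt d j a) (hB : LowerAt d k b) :
    LowerAt d (j + k) ((a ^ d + b ^ d) ^ ((1 : ℝ) / d)) :=
  Pool.Agent.Helper97.BG.superadd d (by omega) hj hk ha hb hA hB

end Pool.Agent.Results.MP_8410f8_pr.Superadditive
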